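import Pool.Agent.H23.LC.Targets
import Pool.Agent.H23.LB.Targets

/-!
Module AV: the mean value of the products.
-/

set_option autoImplicit false

open NumberField NumberField.InfinitePlace NumberField.Units
  NumberField.Units.dirichletUnitTheorem MeasureTheory Set Filter Complex
open scoped nonZeroDivisors ENNReal

namespace Pool.Agent.H42.GLB

open Pool.Agent.H25.HK Pool.Agent.H23.LB Pool.Agent.H23.LC
open Pool.Agent.H28.RC (Rep ft idl)

section

variable {K : Type} [Field K] [NumberField K]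

private theorem AK_nonneg (hFP : Pool.Agent.H23.LB.T_FP) (κ : ℝ) (M : FI K) (hM : M ≠ 0) (z : logSpace K) :
    0 ≤ AK K κ M z := by
  unfold AK
  refine setIntegral_nonneg measurableSet_Ioi fun T hT => ?_
  have h := ((hFP K M hM).2.2.1 z T hT).1
  exact mul_nonneg (by linarith) (Real.rpow_nonneg (le_of_lt hT) κ)

open scoped Classical in
private theorem AK_int (hFD : Pool.Agent.H25.HK.T_FD) (hFP : Pool.Agent.H23.LB.T_FP) (κ : ℝ) (hκ : 0 < κ) (M : FI K) (hM : M ≠ 0) :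
    IntegrableOn (fun z => AK K κ M z) (Fd K) ∧ IntegrableOn (fun z => AK K κ M (-z)) (Fd K) := by
  obtain ⟨hm, ⟨B, hB⟩, -⟩ := hFD K
  have hc : Continuous (fun z => AK K κ M z) := ((hFP K M hM).2.2.2.2.2 κ hκ).1
  have hsub : Fd K ⊆ Metric.closedBall (0 : logSpace K) |B| := by
    intro z hz
    rw [mem_closedBall_zero_iff, pi_norm_le_iff_of_nonneg (abs_nonneg B)]
    intro w
    rw [Real.norm_eq_abs]
    exact (hB z hz w).trans (le_abs_self B)
  have hK : IsCompact (Metric.closedBall (0 : logSpace K) |B|) := isCompact_closedBall _ _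
  exact ⟨(hc.continuousOn.integrableOn_compact hK).mono_set hsub,
    ((hc.comp continuous_neg).continuousOn.integrableOn_compact hK).mono_set hsub⟩

end

theorem pf_AV (hPV : U_PV) (hAK : U_AK) (hRR : Pool.Agent.H23.LB.T_RR) (hFP : Pool.Agent.H23.LB.T_FP) (hFD : Pool.Agent.H25.HK.T_FD) : U_AV := by
  classical
  intro n hn
  obtain ⟨C1, hC1, hP⟩ := hPV n hn
  obtain ⟨C2, B, hC2, hB, hA⟩ := hAK n
  refine ⟨4 * C1 * C2, B + 2, by positivity, by positivity, ?_⟩
  intro κ hκ hκ1 K _ _ hK f hf ι _ M hM N V hN hV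
  have hfM : Reps K (fun c => (f : FI K) * M c) := (hRR K ι M hM).1 f hf
  have hdM : Reps K (fun c => du K (M c)) := (hRR K ι M hM).2.1
  have hdfM : Reps K (fun c => du K ((f : FI K) * M c)) :=
    (hRR K ι (fun c => (f : FI K) * M c) hfM).2.1
  set P : ℝ := C1 * κ ^ (-2 : ℝ) * (N ^ κ * (V + V ^ 2 / N)) with hPdef
  have hN0 : 0 < N := by linarith
  have hX : 0 ≤ N ^ κ * (V + V ^ 2 / N) := by positivity
  have hP0 : 0 ≤ P := by
    rw [hPdef]
    exact mul_nonneg (mul_nonneg hC1 (Real.rpow_nonneg hκ.le _)) hX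
  set Q : ℝ := C2 * κ ^ (-B) * (cw K * |(discr K : ℝ)| ^ ((1 + κ) / 2)) with hQdef
  have hs : ∀ c, (∫⁻ z in Fd K, ENNReal.ofReal ((FT K (M c) z (1 / V) - 1) *
      FT K ((f : FI K) * M c) z (N / V))) ≤ ENNReal.ofReal (P *
      ((∫ z in Fd K, AK K κ (M c) z) + (∫ z in Fd K, AK K κ (du K (M c)) (-z)) +
        (∫ z in Fd K, AK K κ ((f : FI K) * M c) z) +
        ∫ z in Fd K, AK K κ (du K ((f : FI K) * M c)) (-z))) := by
    intro c
    have i1 := (AK_int hFD hFP κ hκ (M c) (hM.1 c)).1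
    have i2 := (AK_int hFD hFP κ hκ (du K (M c)) (hdM.1 c)).2
    have i3 := (AK_int hFD hFP κ hκ ((f : FI K) * M c) (hfM.1 c)).1
    have i4 := (AK_int hFD hFP κ hκ (du K ((f : FI K) * M c)) (hdfM.1 c)).2
    have i12 : IntegrableOn (fun z => AK K κ (M c) z + AK K κ (du K (M c)) (-z)) (Fd K) :=
      i1.add i2
    have i123 : IntegrableOn (fun z => AK K κ (M c) z + AK K κ (du K (M c)) (-z) +
      AK K κ ((f : FI K) * M c) z) (Fd K) := i12.add i3
    have e1 : (∫ z in Fd K, AK K κ (M c) z) + (∫ z in Fd K, AK K κ (du K (M c)) (-z)) +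
        (∫ z in Fd K, AK K κ ((f : FI K) * M c) z) +
        (∫ z in Fd K, AK K κ (du K ((f : FI K) * M c)) (-z)) =
        ∫ z in Fd K, (AK K κ (M c) z + AK K κ (du K (M c)) (-z) + AK K κ ((f : FI K) * M c) z +
          AK K κ (du K ((f : FI K) * M c)) (-z)) := by
      rw [← integral_add i1 i2, ← integral_add i12 i3, ← integral_add i123 i4]
    rw [e1, ← integral_const_mul, ofReal_integral_eq_lintegral_ofReal]
    · refine lintegral_mono fun z => ?_
      exact ENNReal.ofReal_le_ofReal (hP κ hκ hκ1 K hK f (M c) z N V hf (hM.1 c) hN hV)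
    · exact (i123.add i4).const_mul P
    · refine Eventually.of_forall fun z => ?_
      refine mul_nonneg hP0 ?_
      have j1 := AK_nonneg hFP κ (M c) (hM.1 c) z
      have j2 := AK_nonneg hFP κ (du K (M c)) (hdM.1 c) (-z)
      have j3 := AK_nonneg hFP κ ((f : FI K) * M c) (hfM.1 c) z
      have j4 := AK_nonneg hFP κ (du K ((f : FI K) * M c)) (hdfM.1 c) (-z)
      linarith
  have hnn : ∀ c, 0 ≤ P *
      ((∫ z in Fd K, AK K κ (M c) z) + (∫ z in Fd K, AK K κ (du K (M c)) (-z)) +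
        (∫ z in Fd K, AK K κ ((f : FI K) * M c) z) +
        ∫ z in Fd K, AK K κ (du K ((f : FI K) * M c)) (-z)) := by
    intro c
    refine mul_nonneg hP0 ?_
    have j1 : 0 ≤ ∫ z in Fd K, AK K κ (M c) z :=
      integral_nonneg fun z => AK_nonneg hFP κ (M c) (hM.1 c) z
    have j2 : 0 ≤ ∫ z in Fd K, AK K κ (du K (M c)) (-z) :=
      integral_nonneg fun z => AK_nonneg hFP κ (du K (M c)) (hdM.1 c) (-z)
    have j3 : 0 ≤ ∫ z in Fd K, AK K κ ((f : FI K) * M c) z :=
      integral_nonneg fun z => AK_nonneg hFP κ ((f : FI K) * M c) (hfM.1 c) z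
    have j4 : 0 ≤ ∫ z in Fd K, AK K κ (du K ((f : FI K) * M c)) (-z) :=
      integral_nonneg fun z => AK_nonneg hFP κ (du K ((f : FI K) * M c)) (hdfM.1 c) (-z)
    linarith
  refine (Finset.sum_le_sum fun c _ => hs c).trans ?_
  rw [← ENNReal.ofReal_sum_of_nonneg fun c _ => hnn c]
  apply ENNReal.ofReal_le_ofReal
  rw [← Finset.mul_sum, Finset.sum_add_distrib, Finset.sum_add_distrib, Finset.sum_add_distrib]
  have b1 := (hA κ hκ hκ1 K hK ι M hM).1
  have b2 := (hA κ hκ hκ1 K hK ι (fun c => du K (M c)) hdM).2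
  have b3 := (hA κ hκ hκ1 K hK ι (fun c => (f : FI K) * M c) hfM).1
  have b4 := (hA κ hκ hκ1 K hK ι (fun c => du K ((f : FI K) * M c)) hdfM).2
  rw [← hQdef] at b1 b2 b3 b4
  have hk : κ ^ (-2 : ℝ) * κ ^ (-B) = κ ^ (-(B + 2)) := by
    rw [← Real.rpow_add hκ]
    congr 1
    ring
  calc P * ((∑ c, ∫ z in Fd K, AK K κ (M c) z) + (∑ c, ∫ z in Fd K, AK K κ (du K (M c)) (-z)) +
        (∑ c, ∫ z in Fd K, AK K κ ((f : FI K) * M c) z) +
        ∑ c, ∫ z in Fd K, AK K κ (du K ((f : FI K) * M c)) (-z)) ≤ P * (4 * Q) := by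
        apply mul_le_mul_of_nonneg_left _ hP0
        linarith
    _ = 4 * C1 * C2 * (κ ^ (-2 : ℝ) * κ ^ (-B)) * (cw K * |(discr K : ℝ)| ^ ((1 + κ) / 2)) *
        (N ^ κ * (V + V ^ 2 / N)) := by
        rw [hPdef, hQdef]; ring
    _ = _ := by rw [hk]

end Pool.Agent.H42.GLB
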